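import Mathlib
import Pool.Agent.H224R3.Dom3

/-!
There are graphs on `n` vertices such that each mode of the domination polynomial differs from
the average size of a dominating set by at least `c n / log n`.
-/

set_option autoImplicit false

namespace Pool.Agent.Results.MP_fd33cb_co.FarMode

open Finset Pool.Agent.H224R3.Dom

/-- Dominating sets. -/
def IsDom {W : Type} (G : SimpleGraph W) (S : Finset W) : Prop := ∀ v, v ∈ S ∨ ∃ u ∈ S, G.Adj v u

/-- The number of dominating sets of size `i`. -/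
noncomputable def dom {W : Type} (G : SimpleGraph W) (i : ℕ) : ℕ :=
  {S : Finset W | S.card = i ∧ IsDom G S}.ncard

/-- The average size of a dominating set. -/
noncomputable def avd {W : Type} [Fintype W] (G : SimpleGraph W) : ℝ :=
  (∑ i ∈ range (Fintype.card W + 1), (i : ℝ) * (dom G i : ℝ)) /
    ∑ i ∈ range (Fintype.card W + 1), (dom G i : ℝ)

/-- Modes of the domination polynomial. -/
def IsMode {W : Type} (G : SimpleGraph W) (m : ℕ) : Prop := ∀ i, dom G i ≤ dom G m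

/-! ### Exponential moments -/

theorem expMom {α : Type} {A : Finset α} {f : α → ℕ} {N m v : ℝ} (h : Mom (gp A f) N m v)
    {θ : ℝ} (hθ : ∀ x ∈ A, |θ * ((f x : ℝ) - m)| ≤ 1) (hN : 0 ≤ N) :
    ∑ x ∈ A, Real.exp (θ * (f x : ℝ)) ≤ N * Real.exp (θ * m + v * θ ^ 2) := by
  have h0 := h.h0
  have h1 := h.h1
  rw [gp_eval0] at h0
  rw [gp_eval1] at h1
  have h2 := gp_var h
  have e1 : ∑ x ∈ A, Real.exp (θ * ((f x : ℝ) - m)) ≤ N * Real.exp (v * θ ^ 2) := by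
    calc ∑ x ∈ A, Real.exp (θ * ((f x : ℝ) - m))
        ≤ ∑ x ∈ A, (1 + θ * ((f x : ℝ) - m) + (θ * ((f x : ℝ) - m)) ^ 2) := by
          refine sum_le_sum fun x hx => ?_
          have := Real.abs_exp_sub_one_sub_id_le (hθ x hx)
          have := (abs_le.1 this).2
          linarith
      _ = N * (1 + v * θ ^ 2) := by
          have e2 : ∀ x ∈ A, (1 + θ * ((f x : ℝ) - m) + (θ * ((f x : ℝ) - m)) ^ 2) =
              (1 - θ * m) + θ * (f x : ℝ) + θ ^ 2 * ((f x : ℝ) - m) ^ 2 := by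
            intro x _; ring
          rw [sum_congr rfl e2, sum_add_distrib, sum_add_distrib, ← mul_sum, ← mul_sum, h1, h2,
            sum_const, nsmul_eq_mul, h0]
          ring
      _ ≤ N * Real.exp (v * θ ^ 2) := by
          refine mul_le_mul_of_nonneg_left ?_ hN
          have := Real.add_one_le_exp (v * θ ^ 2)
          linarith
  have e3 : ∀ x ∈ A, Real.exp (θ * (f x : ℝ)) =
      Real.exp (θ * m) * Real.exp (θ * ((f x : ℝ) - m)) := by
    intro x _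
    rw [← Real.exp_add]; congr 1; ring
  rw [sum_congr rfl e3, ← mul_sum, Real.exp_add]
  calc Real.exp (θ * m) * ∑ x ∈ A, Real.exp (θ * ((f x : ℝ) - m))
      ≤ Real.exp (θ * m) * (N * Real.exp (v * θ ^ 2)) :=
        mul_le_mul_of_nonneg_left e1 (Real.exp_pos _).le
    _ = _ := by ring

theorem exp_pi {α : Type} (A : Finset α) (f : α → ℕ) (n : ℕ) (θ : ℝ) :
    ∑ c ∈ Fintype.piFinset (fun _ : Fin n => A), Real.exp (θ * ((∑ i, f (c i) : ℕ) : ℝ)) =
      (∑ x ∈ A, Real.exp (θ * (f x : ℝ))) ^ n := by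
  have h := Finset.prod_univ_sum (fun _ : Fin n => A) (fun _ x => Real.exp (θ * (f x : ℝ)))
  rw [prod_const, card_univ, Fintype.card_fin] at h
  rw [h]
  refine sum_congr rfl fun c _ => ?_
  rw [← Real.exp_sum]
  congr 1
  push_cast
  rw [mul_sum]

theorem exp_gen (a M : ℕ) (A B : Finset (Finset (Fin 4))) {N m v N' m' v' : ℝ}
    (hA : Mom (gp A card) N m v) (hB : Mom (gp B card) N' m' v') (hN : 0 ≤ N) (hN' : 0 ≤ N')
    {θ : ℝ} (hθ : |θ| * 4 ≤ 1) (hm : |m - 2| ≤ 2) (hm' : |m' - 2| ≤ 2) :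
    ∑ c ∈ Fintype.piFinset (fun _ : Fin a => A) ×ˢ (Fintype.piFinset (fun _ : Fin a => B) ×ˢ
      Fintype.piFinset (fun _ : Fin M => (univ : Finset Bool))), Real.exp (θ * (sz c : ℝ)) ≤
      (N ^ a * (N' ^ a * 2 ^ M)) * Real.exp (θ * (a * m + (a * m' + M * (1 / 2))) +
        (a * v + (a * v' + M * (1 / 4))) * θ ^ 2) := by
  have hbd : ∀ (m : ℝ), |m - 2| ≤ 2 → ∀ x : Finset (Fin 4), |θ * ((x.card : ℝ) - m)| ≤ 1 := by
    intro m hm x
    rw [abs_mul]
    refine le_trans (mul_le_mul_of_nonneg_left ?_ (abs_nonneg θ)) hθ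
    have h1 : x.card ≤ 4 := by
      have := card_le_univ x
      rwa [Fintype.card_fin] at this
    have h2 : (x.card : ℝ) ≤ 4 := by exact_mod_cast h1
    have h3 : (0 : ℝ) ≤ x.card := Nat.cast_nonneg _
    rw [abs_le] at hm ⊢
    constructor <;> linarith [hm.1, hm.2]
  have hA' := expMom hA (θ := θ) (fun x _ => hbd m hm x) hN
  have hB' := expMom hB (θ := θ) (fun x _ => hbd m' hm' x) hN'
  have hC' := expMom momB (θ := θ) (fun x _ => by
    rw [abs_mul]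
    refine le_trans (mul_le_mul_of_nonneg_left ?_ (abs_nonneg θ)) hθ
    cases x
    · simp; norm_num
    · simp; norm_num [abs_le]) (by norm_num)
  have e1 : ∑ c ∈ Fintype.piFinset (fun _ : Fin a => A) ×ˢ
      (Fintype.piFinset (fun _ : Fin a => B) ×ˢ
      Fintype.piFinset (fun _ : Fin M => (univ : Finset Bool))), Real.exp (θ * (sz c : ℝ)) =
      (∑ x ∈ A, Real.exp (θ * (x.card : ℝ))) ^ a * ((∑ x ∈ B, Real.exp (θ * (x.card : ℝ))) ^ a *
        (∑ x : Bool, Real.exp (θ * ((if x = true then 1 else 0 : ℕ) : ℝ))) ^ M) := by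
    rw [← exp_pi A card a θ, ← exp_pi B card a θ,
      ← exp_pi (univ : Finset Bool) (fun b => if b = true then 1 else 0) M θ]
    have inner : ∀ c : Fin a → Finset (Fin 4),
        ∑ x ∈ (Fintype.piFinset (fun _ : Fin a => B) ×ˢ
          Fintype.piFinset (fun _ : Fin M => (univ : Finset Bool))),
          Real.exp (θ * ((sz ((c, x) : C a M) : ℕ) : ℝ)) =
        Real.exp (θ * ((∑ i, (c i).card : ℕ) : ℝ)) *
          ((∑ d ∈ Fintype.piFinset (fun _ : Fin a => B),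
            Real.exp (θ * ((∑ i, (d i).card : ℕ) : ℝ))) *
          ∑ b ∈ Fintype.piFinset (fun _ : Fin M => (univ : Finset Bool)),
            Real.exp (θ * ((∑ i, (if b i = true then 1 else 0) : ℕ) : ℝ))) := by
      intro c
      rw [sum_product, sum_mul_sum, mul_sum]
      refine sum_congr rfl fun d _ => ?_
      rw [mul_sum]
      refine sum_congr rfl fun b _ => ?_
      rw [← Real.exp_add, ← Real.exp_add]
      congr 1
      simp only [sz]
      push_cast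
      ring
    rw [sum_product, sum_congr rfl (fun c _ => inner c), ← sum_mul]
  rw [e1]
  have p1 : 0 ≤ ∑ x ∈ A, Real.exp (θ * (x.card : ℝ)) := sum_nonneg fun _ _ => (Real.exp_pos _).le
  have p2 : 0 ≤ ∑ x ∈ B, Real.exp (θ * (x.card : ℝ)) := sum_nonneg fun _ _ => (Real.exp_pos _).le
  have p3 : 0 ≤ ∑ x : Bool, Real.exp (θ * ((if x = true then 1 else 0 : ℕ) : ℝ)) :=
    sum_nonneg fun _ _ => (Real.exp_pos _).le
  calc _ ≤ (N * Real.exp (θ * m + v * θ ^ 2)) ^ a * ((N' * Real.exp (θ * m' + v' * θ ^ 2)) ^ a *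
        (2 * Real.exp (θ * (1 / 2) + (1 / 4) * θ ^ 2)) ^ M) := by
        refine mul_le_mul (pow_le_pow_left₀ p1 hA' a) ?_ (by positivity) (by positivity)
        exact mul_le_mul (pow_le_pow_left₀ p2 hB' a) (pow_le_pow_left₀ p3 hC' M) (by positivity)
          (by positivity)
    _ = _ := by
        rw [mul_pow, mul_pow, mul_pow, ← Real.exp_nat_mul, ← Real.exp_nat_mul,
          ← Real.exp_nat_mul]
        have : ∀ x y z p q r : ℝ, x * Real.exp p * (y * Real.exp q * (z * Real.exp r)) =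
            x * (y * z) * Real.exp (p + q + r) := by
          intro x y z p q r
          rw [Real.exp_add, Real.exp_add]; ring
        rw [this]
        congr 2
        ring

/-- The number of elements of a given size far from the mean. -/
theorem tail {a M : ℕ} (D : Finset (C a M)) {Z m v : ℝ}
    (hD : ∀ θ : ℝ, |θ| * 4 ≤ 1 →
      ∑ c ∈ D, Real.exp (θ * (sz c : ℝ)) ≤ Z * Real.exp (θ * m + v * θ ^ 2))
    {θ : ℝ} (h0 : 0 ≤ θ) (hθ : θ * 4 ≤ 1) {R : ℝ} {k : ℕ} (hk : R ≤ |(k : ℝ) - m|) (hZ : 0 ≤ Z) :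
    ((D.filter (fun c => sz c = k)).card : ℝ) ≤ Z * Real.exp (v * θ ^ 2 - θ * R) := by
  have key : ∀ θ' : ℝ, |θ'| * 4 ≤ 1 →
      ((D.filter (fun c => sz c = k)).card : ℝ) ≤ Z * Real.exp (θ' * (m - k) + v * θ' ^ 2) := by
    intro θ' hθ'
    have h1 : ((D.filter (fun c => sz c = k)).card : ℝ) * Real.exp (θ' * (k : ℝ)) ≤
        ∑ c ∈ D, Real.exp (θ' * (sz c : ℝ)) := by
      calc ((D.filter (fun c => sz c = k)).card : ℝ) * Real.exp (θ' * (k : ℝ))
          = ∑ c ∈ D.filter (fun c => sz c = k), Real.exp (θ' * (sz c : ℝ)) := by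
            rw [sum_congr rfl (g := fun _ => Real.exp (θ' * (k : ℝ))), sum_const, nsmul_eq_mul]
            intro c hc
            rw [(mem_filter.1 hc).2]
        _ ≤ _ := sum_le_sum_of_subset_of_nonneg (filter_subset _ _)
            fun _ _ _ => (Real.exp_pos _).le
    have h2 := h1.trans (hD θ' hθ')
    have h3 : Z * Real.exp (θ' * (m - k) + v * θ' ^ 2) * Real.exp (θ' * (k : ℝ)) =
        Z * Real.exp (θ' * m + v * θ' ^ 2) := by
      rw [mul_assoc, ← Real.exp_add]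
      congr 2
      ring
    rw [← h3] at h2
    exact le_of_mul_le_mul_right h2 (Real.exp_pos _)
  rcases le_total 0 ((k : ℝ) - m) with h | h
  · rw [abs_of_nonneg h] at hk
    refine (key θ (by rwa [abs_of_nonneg h0])).trans ?_
    refine mul_le_mul_of_nonneg_left (Real.exp_le_exp.2 ?_) hZ
    nlinarith
  · rw [abs_of_nonpos h] at hk
    refine (key (-θ) (by rwa [abs_neg, abs_of_nonneg h0])).trans ?_
    refine mul_le_mul_of_nonneg_left (Real.exp_le_exp.2 ?_) hZ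
    nlinarith

/-! ### Sizes -/

theorem sz_le {a M : ℕ} (c : C a M) : sz c ≤ 8 * a + M := by
  obtain ⟨S, rfl⟩ := (toC a M).surjective c
  rw [sz_toC]
  refine (card_le_univ S).trans (le_of_eq ?_)
  rw [Fintype.card_sum, Fintype.card_sum, Fintype.card_prod, Fintype.card_fin, Fintype.card_fin,
    Fintype.card_fin]
  ring

theorem card_V (a M : ℕ) : Fintype.card (V a M) = 8 * a + M := by
  rw [Fintype.card_sum, Fintype.card_sum, Fintype.card_prod, Fintype.card_fin, Fintype.card_fin,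
    Fintype.card_fin]
  ring

theorem dom_eq {a M : ℕ} (e : Fin M → Fin a × Fin a) (i : ℕ) : dom (G e) i = dk e i :=
  ncard_eq e i

theorem sum_dk_eq {a M : ℕ} (e : Fin M → Fin a × Fin a) :
    ∑ i ∈ range (8 * a + M + 1), (dk e i : ℝ) = ((univ.filter (Dm e)).card : ℝ) := by
  rw [card_eq_sum_card_fiberwise (s := univ.filter (Dm e)) (f := sz) (t := range (8 * a + M + 1))
    (fun c _ => mem_coe.2 (mem_range.2 (Nat.lt_succ_of_le (sz_le c))))]
  push_cast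
  rfl

theorem sum_mul_dk_eq {a M : ℕ} (e : Fin M → Fin a × Fin a) :
    ∑ i ∈ range (8 * a + M + 1), (i : ℝ) * (dk e i : ℝ) =
      ∑ c ∈ univ.filter (Dm e), (sz c : ℝ) := by
  rw [← sum_fiberwise_of_maps_to (s := univ.filter (Dm e)) (g := sz)
    (t := range (8 * a + M + 1)) (fun c _ => mem_range.2 (Nat.lt_succ_of_le (sz_le c)))]
  refine sum_congr rfl fun i _ => ?_
  rw [sum_congr rfl (g := fun _ => (i : ℝ)), sum_const, nsmul_eq_mul, mul_comm]
  · rfl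
  · intro c hc
    rw [(mem_filter.1 hc).2]

theorem avd_eq {a M : ℕ} (e : Fin M → Fin a × Fin a) :
    avd (G e) = (∑ c ∈ univ.filter (Dm e), (sz c : ℝ)) / ((univ.filter (Dm e)).card : ℝ) := by
  unfold avd
  rw [card_V]
  simp only [dom_eq]
  rw [sum_dk_eq, sum_mul_dk_eq]

/-- The common part of the two phases. -/
theorem card_inter (a M : ℕ) : ((D1 a M ∩ D2 a M).card : ℝ) ≤ 8 ^ a * (8 ^ a * 2 ^ M) := by
  have h1 : D1 a M ∩ D2 a M ⊆ Fintype.piFinset (fun _ : Fin a => VIS) ×ˢ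
      (Fintype.piFinset (fun _ : Fin a => VIIS) ×ˢ
        Fintype.piFinset (fun _ : Fin M => (univ : Finset Bool))) := by
    intro c hc
    rw [mem_inter, D1, D2, mem_product, mem_product, mem_product, mem_product] at hc
    rw [mem_product, mem_product]
    exact ⟨hc.2.1, hc.1.2.1, hc.1.2.2⟩
  refine (Nat.cast_le.2 (card_le_card h1)).trans (le_of_eq ?_)
  rw [card_product, card_product, Fintype.card_piFinset, Fintype.card_piFinset,
    Fintype.card_piFinset, prod_const, prod_const, prod_const, card_univ, card_univ, card_univ,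
    Fintype.card_fin, Fintype.card_fin, Fintype.card_bool]
  have e1 : VIS.card = 8 := by decide
  have e2 : VIIS.card = 8 := by decide
  rw [e1, e2]
  push_cast
  rfl

/-- The main argument, with the numerical conditions as hypotheses. -/
theorem far {a M : ℕ} (e : Fin M → Fin a × Fin a) {Z m1 m2 v1 v2 ε δ θ R : ℝ} (hZ : 0 < Z)
    (h1 : Mom (gp (D1 a M) sz) Z m1 v1) (h2 : Mom (gp (D2 a M) sz) Z m2 v2)
    (E1 : ∀ θ : ℝ, |θ| * 4 ≤ 1 →
      ∑ c ∈ D1 a M, Real.exp (θ * (sz c : ℝ)) ≤ Z * Real.exp (θ * m1 + v1 * θ ^ 2))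
    (E2 : ∀ θ : ℝ, |θ| * 4 ≤ 1 →
      ∑ c ∈ D2 a M, Real.exp (θ * (sz c : ℝ)) ≤ Z * Real.exp (θ * m2 + v2 * θ ^ 2))
    (hm2 : 0 ≤ m2) (hm12 : m2 ≤ m1) (hm1 : m1 ≤ 8 * a + M)
    (hrest : ((univ.filter (Dm e)).card : ℝ) + 2 * ((D1 a M ∩ D2 a M).card : ℝ) ≤ Z * (2 + ε))
    (h0θ : 0 ≤ θ) (hθ : θ * 4 ≤ 1)
    (hδ1 : Real.exp (v1 * θ ^ 2 - θ * R) ≤ δ) (hδ2 : Real.exp (v2 * θ ^ 2 - θ * R) ≤ δ)
    (hεδ : ((8 * a + M : ℝ) + 1) * (2 * δ + ε) ≤ 1 / 2) (hδ0 : 0 ≤ δ)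
    (m : ℕ) (hm : IsMode (G e) m) : (m1 - m2) / 2 - R - 1 ≤ |(m : ℝ) - avd (G e)| := by
  set F := univ.filter (Dm e) with hF
  set n : ℝ := 8 * a + M with hn
  have hn0 : 0 ≤ n := by positivity
  have hD1 : D1 a M ⊆ F := fun c hc => mem_filter.2 ⟨mem_univ _, D1_sub e hc⟩
  have hD2 : D2 a M ⊆ F := fun c hc => mem_filter.2 ⟨mem_univ _, D2_sub e hc⟩
  have c1 : ((D1 a M).card : ℝ) = Z := by rw [← gp_eval0 (D1 a M) sz]; exact h1.h0
  have c2 : ((D2 a M).card : ℝ) = Z := by rw [← gp_eval0 (D2 a M) sz]; exact h2.h0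
  have cu : ((D1 a M ∪ D2 a M).card : ℝ) + ((D1 a M ∩ D2 a M).card : ℝ) = 2 * Z := by
    have := card_union_add_card_inter (D1 a M) (D2 a M)
    have h3 : (((D1 a M ∪ D2 a M).card + (D1 a M ∩ D2 a M).card : ℕ) : ℝ) =
        (((D1 a M).card + (D2 a M).card : ℕ) : ℝ) := by rw [this]
    push_cast at h3
    rw [c1, c2] at h3
    linarith
  have cr : ((F \ (D1 a M ∪ D2 a M)).card : ℝ) + ((D1 a M ∪ D2 a M).card : ℝ) = (F.card : ℝ) := by
    have := card_sdiff_add_card_eq_card (union_subset hD1 hD2)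
    exact_mod_cast this
  set I : ℝ := ((D1 a M ∩ D2 a M).card : ℝ) with hI
  set Q : ℝ := ((F \ (D1 a M ∪ D2 a M)).card : ℝ) with hQ
  have hI0 : 0 ≤ I := Nat.cast_nonneg _
  have hQ0 : 0 ≤ Q := Nat.cast_nonneg _
  have hIQ : I + Q ≤ Z * ε := by nlinarith
  have hFZ : Z ≤ (F.card : ℝ) := by
    rw [← c1]; exact_mod_cast card_le_card hD1
  -- small counts in the middle
  have hsmall : ∀ j : ℕ, R ≤ |(j : ℝ) - m1| → R ≤ |(j : ℝ) - m2| →
      (dk e j : ℝ) ≤ Z * (2 * δ + ε) := by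
    intro j hj1 hj2
    have t1 := (tail (D1 a M) E1 h0θ hθ hj1 hZ.le).trans (mul_le_mul_of_nonneg_left hδ1 hZ.le)
    have t2 := (tail (D2 a M) E2 h0θ hθ hj2 hZ.le).trans (mul_le_mul_of_nonneg_left hδ2 hZ.le)
    have hsub : F.filter (fun c => sz c = j) ⊆ ((D1 a M).filter (fun c => sz c = j) ∪
        (D2 a M).filter (fun c => sz c = j)) ∪ (F \ (D1 a M ∪ D2 a M)) := by
      intro c hc
      rw [mem_filter] at hc
      by_cases hc' : c ∈ D1 a M ∪ D2 a M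
      · refine mem_union_left _ ?_
        rcases mem_union.1 hc' with h | h
        · exact mem_union_left _ (mem_filter.2 ⟨h, hc.2⟩)
        · exact mem_union_right _ (mem_filter.2 ⟨h, hc.2⟩)
      · exact mem_union_right _ (mem_sdiff.2 ⟨hc.1, hc'⟩)
    have h3 : (dk e j : ℝ) ≤ (((D1 a M).filter (fun c => sz c = j)).card : ℝ) +
        (((D2 a M).filter (fun c => sz c = j)).card : ℝ) + Q := by
      have h4 : dk e j ≤ ((D1 a M).filter (fun c => sz c = j)).card +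
          ((D2 a M).filter (fun c => sz c = j)).card + (F \ (D1 a M ∪ D2 a M)).card :=
        (card_le_card hsub).trans ((card_union_le _ _).trans
          (Nat.add_le_add_right (card_union_le _ _) _))
      rw [hQ]
      exact_mod_cast h4
    have h5 : Q ≤ Z * ε := by linarith
    have h6 : Z * (2 * δ + ε) = Z * δ + Z * δ + Z * ε := by ring
    rw [h6]
    linarith
  -- a large count
  obtain ⟨j₀, hj₀⟩ : ∃ j, Z ≤ (n + 1) * (dk e j : ℝ) := by
    by_contra hcon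
    push Not at hcon
    have h3 : ∑ i ∈ range (8 * a + M + 1), (n + 1) * (dk e i : ℝ) <
        ∑ i ∈ range (8 * a + M + 1), Z :=
      sum_lt_sum_of_nonempty ⟨0, mem_range.2 (Nat.succ_pos _)⟩ fun i _ => hcon i
    rw [← mul_sum, sum_dk_eq, sum_const, card_range, nsmul_eq_mul] at h3
    push_cast at h3
    have h4 : (n + 1) * Z ≤ (n + 1) * (F.card : ℝ) :=
      mul_le_mul_of_nonneg_left hFZ (by linarith)
    have h5 : (8 * (a : ℝ) + M + 1) * Z = (n + 1) * Z := by rw [hn]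
    linarith
  have hmid : ¬ (R ≤ |(m : ℝ) - m1| ∧ R ≤ |(m : ℝ) - m2|) := by
    rintro ⟨hj1, hj2⟩
    have h3 := hsmall m hj1 hj2
    have h4 : (dk e j₀ : ℝ) ≤ (dk e m : ℝ) := by
      have := hm j₀
      rw [dom_eq, dom_eq] at this
      exact_mod_cast this
    have h5 : (n + 1) * (dk e j₀ : ℝ) ≤ (n + 1) * (Z * (2 * δ + ε)) :=
      mul_le_mul_of_nonneg_left (h4.trans h3) (by linarith)
    have h6 : (n + 1) * (Z * (2 * δ + ε)) = Z * ((n + 1) * (2 * δ + ε)) := by ring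
    have h7 : Z * ((n + 1) * (2 * δ + ε)) ≤ Z * (1 / 2) := mul_le_mul_of_nonneg_left hεδ hZ.le
    linarith
  -- the average
  have havd : |avd (G e) - (m1 + m2) / 2| ≤ 1 := by
    rw [avd_eq]
    have hFpos : (0 : ℝ) < F.card := lt_of_lt_of_le hZ hFZ
    have s1 : ∑ c ∈ D1 a M, (sz c : ℝ) = m1 * Z := by rw [← gp_eval1 (D1 a M) sz]; exact h1.h1
    have s2 : ∑ c ∈ D2 a M, (sz c : ℝ) = m2 * Z := by rw [← gp_eval1 (D2 a M) sz]; exact h2.h1
    have s3 : ∑ c ∈ D1 a M ∪ D2 a M, (sz c : ℝ) + ∑ c ∈ D1 a M ∩ D2 a M, (sz c : ℝ) =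
        m1 * Z + m2 * Z := by
      rw [sum_union_inter, s1, s2]
    have s4 : ∑ c ∈ F \ (D1 a M ∪ D2 a M), (sz c : ℝ) + ∑ c ∈ D1 a M ∪ D2 a M, (sz c : ℝ) =
        ∑ c ∈ F, (sz c : ℝ) := sum_sdiff (union_subset hD1 hD2)
    have bd : ∀ A : Finset (C a M), 0 ≤ ∑ c ∈ A, (sz c : ℝ) ∧
        ∑ c ∈ A, (sz c : ℝ) ≤ n * (A.card : ℝ) := by
      intro A
      refine ⟨sum_nonneg fun _ _ => Nat.cast_nonneg _, ?_⟩
      calc ∑ c ∈ A, (sz c : ℝ) ≤ ∑ c ∈ A, n := by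
            refine sum_le_sum fun c _ => ?_
            have := sz_le c
            have h5 : ((sz c : ℕ) : ℝ) ≤ ((8 * a + M : ℕ) : ℝ) := Nat.cast_le.2 this
            push_cast at h5
            exact h5
        _ = n * (A.card : ℝ) := by rw [sum_const, nsmul_eq_mul, mul_comm]
    have b1 := bd (D1 a M ∩ D2 a M)
    have b2 := bd (F \ (D1 a M ∪ D2 a M))
    have hcardF : (F.card : ℝ) = Q + (2 * Z - I) := by rw [← cr]; linarith
    have hnum : |∑ c ∈ F, (sz c : ℝ) - (m1 + m2) / 2 * (F.card : ℝ)| ≤ n * (I + Q) := by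
      have h5 : ∑ c ∈ F, (sz c : ℝ) - (m1 + m2) / 2 * (F.card : ℝ) =
          (∑ c ∈ F \ (D1 a M ∪ D2 a M), (sz c : ℝ) - (m1 + m2) / 2 * Q) -
          (∑ c ∈ D1 a M ∩ D2 a M, (sz c : ℝ) - (m1 + m2) / 2 * I) := by
        rw [← s4, hcardF]
        linarith
      have h6 : 0 ≤ (m1 + m2) / 2 := by linarith
      have h7 : (m1 + m2) / 2 ≤ n := by linarith
      have h8 : (m1 + m2) / 2 * Q ≤ n * Q := mul_le_mul_of_nonneg_right h7 hQ0
      have h9 : (m1 + m2) / 2 * I ≤ n * I := mul_le_mul_of_nonneg_right h7 hI0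
      have h10 : 0 ≤ (m1 + m2) / 2 * Q := mul_nonneg h6 hQ0
      have h11 : 0 ≤ (m1 + m2) / 2 * I := mul_nonneg h6 hI0
      rw [h5, abs_le]
      constructor
      · linarith [b1.1, b1.2, b2.1, b2.2]
      · linarith [b1.1, b1.2, b2.1, b2.2]
    have h12 : n * (I + Q) ≤ F.card := by
      have h13 : n * (I + Q) ≤ (n + 1) * (Z * (2 * δ + ε)) := by
        refine mul_le_mul (by linarith) ?_ (by linarith) (by linarith)
        have h17 : Z * (2 * δ + ε) = Z * (2 * δ) + Z * ε := by ring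
        have h18 : 0 ≤ Z * (2 * δ) := by positivity
        linarith
      have h14 : (n + 1) * (Z * (2 * δ + ε)) = Z * ((n + 1) * (2 * δ + ε)) := by ring
      have h15 : Z * ((n + 1) * (2 * δ + ε)) ≤ Z * (1 / 2) := mul_le_mul_of_nonneg_left hεδ hZ.le
      linarith
    have h16 : (∑ c ∈ F, (sz c : ℝ)) / (F.card : ℝ) - (m1 + m2) / 2 =
        (∑ c ∈ F, (sz c : ℝ) - (m1 + m2) / 2 * (F.card : ℝ)) / (F.card : ℝ) := by
      rw [sub_div, mul_div_assoc, div_self hFpos.ne', mul_one]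
    rw [h16, abs_div, abs_of_pos hFpos, div_le_one hFpos]
    exact hnum.trans h12
  -- conclusion
  rw [abs_le] at havd
  by_contra hcon
  push Not at hcon
  rw [abs_lt] at hcon
  apply hmid
  constructor
  · rw [le_abs]; right; linarith [hcon.2, havd.2]
  · rw [le_abs]; left; linarith [hcon.1, havd.1]

/-! ### The parameters -/

theorem growth (k : ℕ) (hk : 40 ≤ k) : 1300 * (3 * k + 60) * (5 * k + 60) ≤ 2 ^ k := by
  induction k, hk using Nat.le_induction with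
  | base => norm_num
  | succ k hk ih =>
    rw [pow_succ]
    nlinarith

theorem total_le (a M t : ℕ) (hat : a = 100 * t) (r : ℝ) (hr0 : 0 ≤ r) (hr : r * a ≤ 8) :
    2 ^ M * (2 * (9 ^ a * (8 + r) ^ a) + (8 + 1 / 4) ^ a * (8 + 1 / 4) ^ a * 16 ^ t) ≤
      ((9 : ℝ) ^ a * (8 ^ a * 2 ^ M)) * (2 + a * r / 2 + (1 / 10) ^ t) := by
  have h1 : (8 + r) ^ a ≤ 8 ^ a * (1 + a * r / 4) := by
    have e1 : (8 + r) ^ a = 8 ^ a * (1 + r / 8) ^ a := by
      rw [← mul_pow]; congr 1; ring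
    have e2 : (1 + r / 8) ^ a ≤ 1 + a * r / 4 := by
      have f1 : (1 + r / 8) ^ a ≤ Real.exp (a * (r / 8)) := by
        rw [Real.exp_nat_mul]
        apply pow_le_pow_left₀ (by positivity)
        have := Real.add_one_le_exp (r / 8)
        linarith
      have f2 : 0 ≤ (a : ℝ) * (r / 8) := by positivity
      have f3 : (a : ℝ) * (r / 8) ≤ 1 := by linarith
      have f4 := Real.abs_exp_sub_one_sub_id_le (x := (a : ℝ) * (r / 8)) (by
        rw [abs_of_nonneg f2]; exact f3)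
      have f5 := (abs_le.1 f4).2
      nlinarith
    rw [e1]
    exact mul_le_mul_of_nonneg_left e2 (by positivity)
  have h2 : (8 + 1 / 4 : ℝ) ^ a * (8 + 1 / 4) ^ a * 16 ^ t ≤ (1 / 10) ^ t * (9 ^ a * 8 ^ a) := by
    have e0 : (8 + 1 / 4 : ℝ) = 33 / 4 := by norm_num
    have e1 : (8 + 1 / 4 : ℝ) ^ a * (8 + 1 / 4) ^ a * 16 ^ t = ((33 / 4) ^ 200 * 16) ^ t := by
      calc (8 + 1 / 4 : ℝ) ^ a * (8 + 1 / 4) ^ a * 16 ^ t = (33 / 4) ^ (200 * t) * 16 ^ t := by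
            rw [← pow_add, hat, e0, show 100 * t + 100 * t = 200 * t by ring]
        _ = ((33 / 4) ^ 200) ^ t * 16 ^ t := by rw [pow_mul]
        _ = _ := (mul_pow _ _ _).symm
    have e2 : ((9 : ℝ) ^ a * 8 ^ a) = (72 ^ 100) ^ t := by
      rw [← mul_pow, hat, pow_mul, show (9 : ℝ) * 8 = 72 by norm_num]
    have e3 : ((33 / 4 : ℝ) ^ 200 * 16) ≤ (1 / 10) * 72 ^ 100 := by norm_num
    rw [e1, e2]
    calc ((33 / 4 : ℝ) ^ 200 * 16) ^ t ≤ ((1 / 10) * 72 ^ 100) ^ t :=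
          pow_le_pow_left₀ (by positivity) e3 t
      _ = (1 / 10) ^ t * (72 ^ 100) ^ t := mul_pow _ _ _
  have h3 : 2 * ((9 : ℝ) ^ a * (8 + r) ^ a) + (8 + 1 / 4) ^ a * (8 + 1 / 4) ^ a * 16 ^ t ≤
      (9 ^ a * 8 ^ a) * (2 + a * r / 2 + (1 / 10) ^ t) := by
    have h4 : (9 : ℝ) ^ a * (8 + r) ^ a ≤ 9 ^ a * (8 ^ a * (1 + a * r / 4)) :=
      mul_le_mul_of_nonneg_left h1 (by positivity)
    calc _ ≤ 2 * ((9 : ℝ) ^ a * (8 ^ a * (1 + a * r / 4))) + (1 / 10) ^ t * (9 ^ a * 8 ^ a) := by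
          linarith
      _ = _ := by ring
  calc (2 : ℝ) ^ M * (2 * (9 ^ a * (8 + r) ^ a) + (8 + 1 / 4) ^ a * (8 + 1 / 4) ^ a * 16 ^ t)
      ≤ 2 ^ M * ((9 ^ a * 8 ^ a) * (2 + a * r / 2 + (1 / 10) ^ t)) :=
        mul_le_mul_of_nonneg_left h3 (by positivity)
    _ = _ := by ring

theorem exp_neg_le (j : ℕ) : Real.exp (-(j : ℝ)) ≤ (1 / 2) ^ j := by
  have h1 : Real.exp (-(j : ℝ)) = Real.exp (-1) ^ j := by
    rw [← Real.exp_nat_mul]; congr 1; ring
  rw [h1]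
  refine pow_le_pow_left₀ (Real.exp_pos _).le ?_ j
  rw [Real.exp_neg, one_div]
  apply inv_anti₀ (by norm_num)
  have := Real.add_one_le_exp (1 : ℝ)
  linarith

theorem half_pow (k j c : ℕ) : ((1 : ℝ) / 2) ^ (j * k + c) = 1 / (((2 : ℝ) ^ k) ^ j * 2 ^ c) := by
  rw [one_div, one_div, inv_pow, pow_add, mul_comm j k, pow_mul]

/-- The numerical estimates. -/
theorem numeric {k : ℕ} (hk : 40 ≤ k) {u K a M r : ℝ} (hu : u = 2 ^ k) (hK : K = 3 * k + 60)
    (ha : a = 900 * u) (hM : M = 180000 * u * K) (hr0 : 0 ≤ r)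
    (hr : r ≤ (1 / 2) ^ (3 * k + 60)) :
    r * a ≤ 8 ∧ ((8 * a + M) + 1) * (2 * (1 / 2) ^ (5 * k + 60) +
      (a * r / 2 + (1 / 10) ^ (9 * 2 ^ k) + 2 * (1 / 2) ^ (2 ^ k))) ≤ 1 / 2 := by
  have hg := growth k hk
  have hK1 : 3 * k + 60 ≤ 2 ^ k := by
    have : 1 ≤ 5 * k + 60 := by omega
    nlinarith
  have hu40 : 2 * k + 40 ≤ 2 ^ k := by omega
  have uR : (1 : ℝ) ≤ u := by rw [hu]; exact one_le_pow₀ (by norm_num)
  have u0 : (0 : ℝ) < u := by linarith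
  have kR : (40 : ℝ) ≤ k := by exact_mod_cast hk
  have KR : (1 : ℝ) ≤ K := by rw [hK]; linarith
  have K0 : (0 : ℝ) < K := by linarith
  have KuR : K ≤ u := by rw [hK, hu]; exact_mod_cast hK1
  have hpowK := half_pow k 3 60
  rw [← hu] at hpowK
  have hu3 : u ^ 3 * ((1 : ℝ) / 2) ^ (3 * k + 60) = 1 / 2 ^ 60 := by
    rw [hpowK]; field_simp
  have hn : (8 * a + M) + 1 ≤ 2 ^ 18 * u * K := by
    rw [ha, hM]
    nlinarith [mul_nonneg (by linarith : (0 : ℝ) ≤ u - 1) (by linarith : (0 : ℝ) ≤ K - 1)]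
  have hn2 : (8 * a + M) + 1 ≤ 2 ^ 18 * u ^ 2 := by
    refine hn.trans ?_
    have : u * K ≤ u * u := mul_le_mul_of_nonneg_left KuR u0.le
    nlinarith
  have hpowu : ((1 : ℝ) / 2) ^ (2 ^ k) ≤ 1 / (u ^ 2 * 2 ^ 40) := by
    calc ((1 : ℝ) / 2) ^ (2 ^ k) ≤ (1 / 2) ^ (2 * k + 40) :=
          pow_le_pow_of_le_one (by norm_num) (by norm_num) hu40
      _ = 1 / (u ^ 2 * 2 ^ 40) := by rw [half_pow, hu]
  have hu2 : u ^ 2 * ((1 : ℝ) / 2) ^ (2 ^ k) ≤ 1 / 2 ^ 40 := by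
    calc u ^ 2 * ((1 : ℝ) / 2) ^ (2 ^ k) ≤ u ^ 2 * (1 / (u ^ 2 * 2 ^ 40)) :=
          mul_le_mul_of_nonneg_left hpowu (by positivity)
      _ = 1 / 2 ^ 40 := by field_simp
  have p1 : (0 : ℝ) ≤ (1 / 2) ^ (3 * k + 60) := by positivity
  have p2 : (0 : ℝ) ≤ (1 / 2) ^ (2 ^ k) := by positivity
  have a0 : 0 ≤ a := by rw [ha]; positivity
  have M0 : 0 ≤ M := by rw [hM]; positivity
  refine ⟨?_, ?_⟩
  · have h1 : r * a ≤ (1 / 2) ^ (3 * k + 60) * (900 * u) := by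
      rw [ha]; exact mul_le_mul_of_nonneg_right hr (by positivity)
    have h3 : u ≤ u ^ 3 := le_self_pow₀ uR (by norm_num)
    have h4 : (1 / 2) ^ (3 * k + 60) * (900 * u) ≤ 900 * (u ^ 3 * (1 / 2) ^ (3 * k + 60)) := by
      have := mul_le_mul_of_nonneg_left h3 p1
      linarith
    rw [hu3] at h4
    have h5 : (900 : ℝ) * (1 / 2 ^ 60) ≤ 8 := by norm_num
    linarith
  · have t1 : ((8 * a + M) + 1) * (a * r / 2) ≤ 1 / 16 := by
      have h1 : a * r / 2 ≤ 450 * u * (1 / 2) ^ (3 * k + 60) := by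
        rw [ha]
        have : (900 * u) * r ≤ 900 * u * (1 / 2) ^ (3 * k + 60) :=
          mul_le_mul_of_nonneg_left hr (by positivity)
        linarith
      calc ((8 * a + M) + 1) * (a * r / 2) ≤
            (2 ^ 18 * u ^ 2) * (450 * u * (1 / 2) ^ (3 * k + 60)) :=
            mul_le_mul hn2 h1 (by positivity) (by positivity)
        _ = 2 ^ 18 * 450 * (u ^ 3 * (1 / 2) ^ (3 * k + 60)) := by ring
        _ = 2 ^ 18 * 450 * (1 / 2 ^ 60) := by rw [hu3]
        _ ≤ 1 / 16 := by norm_num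
    have t2 : ((8 * a + M) + 1) * (1 / 10) ^ (9 * 2 ^ k) ≤ 1 / 16 := by
      have h1 : ((1 : ℝ) / 10) ^ (9 * 2 ^ k) ≤ (1 / 2) ^ (2 ^ k) := by
        calc ((1 : ℝ) / 10) ^ (9 * 2 ^ k) ≤ (1 / 2) ^ (9 * 2 ^ k) :=
              pow_le_pow_left₀ (by norm_num) (by norm_num) _
          _ ≤ (1 / 2) ^ (2 ^ k) := pow_le_pow_of_le_one (by norm_num) (by norm_num) (by omega)
      calc ((8 * a + M) + 1) * (1 / 10) ^ (9 * 2 ^ k) ≤ (2 ^ 18 * u ^ 2) * (1 / 2) ^ (2 ^ k) :=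
            mul_le_mul hn2 h1 (by positivity) (by positivity)
        _ = 2 ^ 18 * (u ^ 2 * (1 / 2) ^ (2 ^ k)) := by ring
        _ ≤ 2 ^ 18 * (1 / 2 ^ 40) := mul_le_mul_of_nonneg_left hu2 (by norm_num)
        _ ≤ 1 / 16 := by norm_num
    have t3 : ((8 * a + M) + 1) * (2 * (1 / 2) ^ (2 ^ k)) ≤ 1 / 16 := by
      calc ((8 * a + M) + 1) * (2 * (1 / 2) ^ (2 ^ k)) ≤
            (2 ^ 18 * u ^ 2) * (2 * (1 / 2) ^ (2 ^ k)) :=
            mul_le_mul_of_nonneg_right hn2 (by positivity)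
        _ = 2 ^ 19 * (u ^ 2 * (1 / 2) ^ (2 ^ k)) := by ring
        _ ≤ 2 ^ 19 * (1 / 2 ^ 40) := mul_le_mul_of_nonneg_left hu2 (by norm_num)
        _ ≤ 1 / 16 := by norm_num
    have t4 : ((8 * a + M) + 1) * (2 * (1 / 2) ^ (5 * k + 60)) ≤ 1 / 16 := by
      have h1 : ((1 : ℝ) / 2) ^ (5 * k + 60) = 1 / (u ^ 5 * 2 ^ 60) := by rw [half_pow, hu]
      have h2 : u ^ 2 * (1 / 2) ^ (5 * k + 60) ≤ 1 / 2 ^ 60 := by
        have h3 : u ^ 2 ≤ u ^ 5 := pow_le_pow_right₀ uR (by norm_num)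
        rw [h1]
        calc u ^ 2 * (1 / (u ^ 5 * 2 ^ 60)) ≤ u ^ 5 * (1 / (u ^ 5 * 2 ^ 60)) :=
              mul_le_mul_of_nonneg_right h3 (by positivity)
          _ = 1 / 2 ^ 60 := by field_simp
      calc ((8 * a + M) + 1) * (2 * (1 / 2) ^ (5 * k + 60)) ≤
            (2 ^ 18 * u ^ 2) * (2 * (1 / 2) ^ (5 * k + 60)) :=
            mul_le_mul_of_nonneg_right hn2 (by positivity)
        _ = 2 ^ 19 * (u ^ 2 * (1 / 2) ^ (5 * k + 60)) := by ring
        _ ≤ 2 ^ 19 * (1 / 2 ^ 60) := mul_le_mul_of_nonneg_left h2 (by norm_num)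
        _ ≤ 1 / 16 := by norm_num
    have h1 : ((8 * a + M) + 1) * (2 * (1 / 2) ^ (5 * k + 60) +
        (a * r / 2 + (1 / 10) ^ (9 * 2 ^ k) + 2 * (1 / 2) ^ (2 ^ k))) =
        ((8 * a + M) + 1) * (2 * (1 / 2) ^ (5 * k + 60)) +
        (((8 * a + M) + 1) * (a * r / 2) + ((8 * a + M) + 1) * (1 / 10) ^ (9 * 2 ^ k) +
        ((8 * a + M) + 1) * (2 * (1 / 2) ^ (2 ^ k))) := by ring
    rw [h1]
    linarith

theorem tail_num {k : ℕ} (hk : 40 ≤ k) {u K v : ℝ} (hu : u = 2 ^ k) (hK : K = 3 * k + 60)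
    (hv : v ≤ 46075 * u * K) :
    Real.exp (v * (1 / (8000 * K)) ^ 2 - (1 / (8000 * K)) * (12 * u)) ≤
      (1 / 2) ^ (5 * k + 60) := by
  have kR : (40 : ℝ) ≤ k := by exact_mod_cast hk
  have hK0 : (0 : ℝ) < K := by rw [hK]; linarith
  have h3 : v * (1 / (8000 * K)) ^ 2 ≤ 46075 * u * K * (1 / (8000 * K)) ^ 2 :=
    mul_le_mul_of_nonneg_right hv (by positivity)
  have h4 : 46075 * u * K * (1 / (8000 * K)) ^ 2 - (1 / (8000 * K)) * (12 * u) =
      -(u / K * (49925 / 64000000)) := by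
    field_simp
    ring
  have h5 : ((5 * k + 60 : ℕ) : ℝ) ≤ u / K * (49925 / 64000000) := by
    have h6 : (1300 : ℝ) * K * ((5 * k + 60 : ℕ) : ℝ) ≤ u := by
      have := growth k hk
      rw [hK, hu]
      exact_mod_cast this
    rw [div_mul_eq_mul_div, le_div_iff₀ hK0]
    have h7 : (0 : ℝ) ≤ K * ((5 * k + 60 : ℕ) : ℝ) := by positivity
    linarith
  calc Real.exp (v * (1 / (8000 * K)) ^ 2 - (1 / (8000 * K)) * (12 * u)) ≤
        Real.exp (-((5 * k + 60 : ℕ) : ℝ)) := Real.exp_le_exp.2 (by linarith)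
    _ ≤ (1 / 2) ^ (5 * k + 60) := exp_neg_le _

theorem eight_nine (u : ℕ) : (8 : ℝ) ^ (900 * u) ≤ 9 ^ (900 * u) * (1 / 2) ^ u := by
  have h1 : (8 : ℝ) ^ 6 ≤ 9 ^ 6 * (1 / 2) := by norm_num
  have h2 : (8 : ℝ) ^ (6 * u) ≤ 9 ^ (6 * u) * (1 / 2) ^ u := by
    rw [pow_mul, pow_mul, ← mul_pow]
    exact pow_le_pow_left₀ (by norm_num) h1 u
  have h3 : (8 : ℝ) ^ (894 * u) ≤ 9 ^ (894 * u) :=
    pow_le_pow_left₀ (by norm_num) (by norm_num) _
  calc (8 : ℝ) ^ (900 * u) = 8 ^ (6 * u) * 8 ^ (894 * u) := by rw [← pow_add]; congr 1; ring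
    _ ≤ (9 ^ (6 * u) * (1 / 2) ^ u) * 9 ^ (894 * u) :=
        mul_le_mul h2 h3 (by positivity) (by positivity)
    _ = (9 ^ (6 * u) * 9 ^ (894 * u)) * (1 / 2) ^ u := by ring
    _ = 9 ^ (900 * u) * (1 / 2) ^ u := by rw [← pow_add]; congr 2; ring

/-- The family: about `k * 2 ^ k` vertices, distance at least `49 * 2 ^ k`. -/
theorem family (k : ℕ) (hk : 40 ≤ k) :
    ∃ (a M : ℕ) (e : Fin M → Fin a × Fin a),
      8 * a + M = 7200 * 2 ^ k + 180000 * 2 ^ k * (3 * k + 60) ∧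
      ∀ m : ℕ, IsMode (G e) m → 49 * (2 : ℝ) ^ k ≤ |(m : ℝ) - avd (G e)| := by
  have h2k : 1 ≤ 2 ^ k := Nat.one_le_two_pow
  obtain ⟨a, ha⟩ : ∃ a, a = 900 * 2 ^ k := ⟨_, rfl⟩
  obtain ⟨M, hM⟩ : ∃ M, M = 180000 * 2 ^ k * (3 * k + 60) := ⟨_, rfl⟩
  obtain ⟨u, hu⟩ : ∃ u : ℝ, u = 2 ^ k := ⟨_, rfl⟩
  obtain ⟨K, hK⟩ : ∃ K : ℝ, K = 3 * k + 60 := ⟨_, rfl⟩
  have haR : (a : ℝ) = 900 * u := by rw [ha, hu]; push_cast; ring
  have hMR : (M : ℝ) = 180000 * u * K := by rw [hM, hu, hK]; push_cast; ring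
  have kR : (40 : ℝ) ≤ k := by exact_mod_cast hk
  have K0 : (0 : ℝ) < K := by rw [hK]; linarith
  have K1 : (180 : ℝ) ≤ K := by rw [hK]; linarith
  have uR : (1 : ℝ) ≤ u := by rw [hu]; exact one_le_pow₀ (by norm_num)
  have u0 : (0 : ℝ) < u := by linarith
  obtain ⟨e, he⟩ := exists_e a M (9 * 2 ^ k) (by omega)
  refine ⟨a, M, e, by rw [ha, hM]; ring, ?_⟩
  intro m hm
  have hκ : ((M : ℝ) / (2 * (a : ℝ) ^ 2) * ((9 * 2 ^ k : ℕ) : ℝ)) = ((3 * k + 60 : ℕ) : ℝ) := by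
    have h1 : ((9 * 2 ^ k : ℕ) : ℝ) = 9 * u := by rw [hu]; push_cast; ring
    have h2 : ((3 * k + 60 : ℕ) : ℝ) = K := by rw [hK]; push_cast; ring
    rw [h1, h2, hMR, haR]
    field_simp
    ring
  rw [hκ] at he
  obtain ⟨r, hr⟩ : ∃ r, r = Real.exp (-((3 * k + 60 : ℕ) : ℝ)) := ⟨_, rfl⟩
  rw [← hr] at he
  have hr0 : 0 ≤ r := by rw [hr]; exact (Real.exp_pos _).le
  have hrK : r ≤ (1 / 2) ^ (3 * k + 60) := by rw [hr]; exact exp_neg_le _
  obtain ⟨n1, n2⟩ := numeric hk hu hK haR hMR hr0 hrK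
  have hT := he.trans (total_le a M (9 * 2 ^ k) (by rw [ha]; ring) r hr0 n1)
  obtain ⟨Z, hZ⟩ : ∃ Z : ℝ, Z = 9 ^ a * (8 ^ a * 2 ^ M) := ⟨_, rfl⟩
  rw [← hZ] at hT
  have hZ0 : 0 < Z := by rw [hZ]; positivity
  have hI : ((D1 a M ∩ D2 a M).card : ℝ) ≤ Z * (1 / 2) ^ (2 ^ k) := by
    refine (card_inter a M).trans ?_
    have h1 : (8 : ℝ) ^ a ≤ 9 ^ a * (1 / 2) ^ (2 ^ k) := by
      rw [ha]; exact eight_nine _
    calc (8 : ℝ) ^ a * (8 ^ a * 2 ^ M) ≤ (9 ^ a * (1 / 2) ^ (2 ^ k)) * (8 ^ a * 2 ^ M) :=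
          mul_le_mul_of_nonneg_right h1 (by positivity)
      _ = Z * (1 / 2) ^ (2 ^ k) := by rw [hZ]; ring
  have hrest : ((univ.filter (Dm e)).card : ℝ) + 2 * ((D1 a M ∩ D2 a M).card : ℝ) ≤
      Z * (2 + (a * r / 2 + (1 / 10) ^ (9 * 2 ^ k) + 2 * (1 / 2) ^ (2 ^ k))) := by
    have h1 : Z * (2 + (a * r / 2 + (1 / 10) ^ (9 * 2 ^ k) + 2 * (1 / 2) ^ (2 ^ k))) =
        Z * (2 + a * r / 2 + (1 / 10) ^ (9 * 2 ^ k)) + 2 * (Z * (1 / 2) ^ (2 ^ k)) := by ring
    rw [h1]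
    linarith
  have hθ4 : 1 / (8000 * K) * 4 ≤ 1 := by
    rw [div_mul_eq_mul_div, div_le_one (by positivity)]
    linarith
  have hZ2 : (8 : ℝ) ^ a * (9 ^ a * 2 ^ M) = Z := by rw [hZ]; ring
  have M1 := mom1 a M
  rw [← hZ] at M1
  have M2 := mom2 a M
  rw [hZ2] at M2
  have X1 := fun (θ : ℝ) (hθ : |θ| * 4 ≤ 1) => exp_gen a M VI VIIS momI momIIS (by norm_num)
    (by norm_num) hθ (by norm_num [abs_le]) (by norm_num [abs_le])
  rw [← hZ] at X1
  have X2 := fun (θ : ℝ) (hθ : |θ| * 4 ≤ 1) => exp_gen a M VIS VII momIS momII (by norm_num)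
    (by norm_num) hθ (by norm_num [abs_le]) (by norm_num [abs_le])
  rw [hZ2] at X2
  have huK : u ≤ u * K := by
    have := mul_le_mul_of_nonneg_left (show (1 : ℝ) ≤ K by linarith) u0.le
    linarith
  have hres := far e (R := 12 * u) hZ0 M1 M2 X1 X2 (by positivity)
    (by rw [haR]; linarith) (by rw [haR]; linarith) hrest (by positivity) hθ4
    (tail_num hk hu hK (by rw [haR, hMR]; linarith))
    (tail_num hk hu hK (by rw [haR, hMR]; linarith)) n2 (by positivity) m hm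
  refine le_trans ?_ hres
  rw [haR, hMR, ← hu]
  linarith

theorem exists_mode {W : Type} [Fintype W] (G : SimpleGraph W) : ∃ m, IsMode G m := by
  obtain ⟨m, -, hm⟩ := exists_max_image (range (Fintype.card W + 1)) (dom G)
    ⟨0, mem_range.2 (Nat.succ_pos _)⟩
  refine ⟨m, fun i => ?_⟩
  by_cases hi : i < Fintype.card W + 1
  · exact hm i (mem_range.2 hi)
  · have h0 : dom G i = 0 := by
      have h1 : {S : Finset W | S.card = i ∧ IsDom G S} = ∅ := by
        rw [Set.eq_empty_iff_forall_notMem]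
        rintro S ⟨hS, -⟩
        have := card_le_univ S
        omega
      unfold dom
      rw [h1, Set.ncard_empty]
    omega

/-- There is a constant `c > 0` such that for infinitely many `n` there is a graph on `n`
vertices in which each mode of the domination polynomial differs from the average size of a
dominating set by at least `c n / log n`; in particular, no mode is the floor or the ceiling of
the average size. -/
theorem result : ∃ c : ℝ, 0 < c ∧ ∀ N : ℕ, ∃ (W : Type) (_ : Fintype W) (G : SimpleGraph W),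
    N ≤ Fintype.card W ∧ (∃ m, IsMode G m) ∧ ∀ m : ℕ, IsMode G m →
      c * (Fintype.card W : ℝ) / Real.log (Fintype.card W : ℝ) ≤ |(m : ℝ) - avd G| ∧
      (m : ℤ) ≠ ⌊avd G⌋ ∧ (m : ℤ) ≠ ⌈avd G⌉ := by
  refine ⟨1 / 100000, by norm_num, fun N => ?_⟩
  obtain ⟨k, hk⟩ : ∃ k, k = 40 + N := ⟨_, rfl⟩
  have hk40 : 40 ≤ k := by omega
  obtain ⟨a, M, e, hn, hfar⟩ := family k hk40
  have hN : N ≤ 2 ^ k := by
    have : k < 2 ^ k := Nat.lt_two_pow_self
    omega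
  refine ⟨V a M, inferInstance, G e, ?_, exists_mode _, ?_⟩
  · rw [card_V, hn]
    omega
  · intro m hm
    have h1 := hfar m hm
    have u1 : (1 : ℝ) ≤ 2 ^ k := one_le_pow₀ (by norm_num)
    have kR : (40 : ℝ) ≤ k := by exact_mod_cast hk40
    refine ⟨?_, ?_, ?_⟩
    · refine le_trans ?_ h1
      have hcard : (Fintype.card (V a M) : ℝ) =
          7200 * 2 ^ k + 180000 * 2 ^ k * (3 * k + 60) := by
        rw [card_V, hn]; push_cast; ring
      have hlog : (k : ℝ) / 2 ≤ Real.log (Fintype.card (V a M) : ℝ) := by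
        have h2 : (2 : ℝ) ^ k ≤ (Fintype.card (V a M) : ℝ) := by
          rw [hcard]
          have : (0 : ℝ) ≤ 180000 * 2 ^ k * (3 * k + 60) := by positivity
          linarith
        have h3 := Real.log_le_log (by positivity) h2
        rw [Real.log_pow] at h3
        have h4 := Real.log_two_gt_d9
        nlinarith
      have hlog0 : 0 < Real.log (Fintype.card (V a M) : ℝ) := by linarith
      rw [div_le_iff₀ hlog0]
      have h5 : 49 * (2 : ℝ) ^ k * (k / 2) ≤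
          49 * 2 ^ k * Real.log (Fintype.card (V a M) : ℝ) :=
        mul_le_mul_of_nonneg_left hlog (by positivity)
      refine le_trans ?_ h5
      rw [hcard]
      have h6 : (2 : ℝ) ^ k * 40 ≤ 2 ^ k * k := mul_le_mul_of_nonneg_left kR (by positivity)
      nlinarith
    · intro h
      have h2 : |(m : ℝ) - avd (G e)| < 1 := by
        have h3 : (m : ℝ) = (⌊avd (G e)⌋ : ℝ) := by exact_mod_cast congrArg (Int.cast (R := ℝ)) h
        rw [h3, abs_lt]
        constructor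
        · linarith [Int.lt_floor_add_one (avd (G e))]
        · linarith [Int.floor_le (avd (G e))]
      linarith
    · intro h
      have h2 : |(m : ℝ) - avd (G e)| < 1 := by
        have h3 : (m : ℝ) = (⌈avd (G e)⌉ : ℝ) := by exact_mod_cast congrArg (Int.cast (R := ℝ)) h
        rw [h3, abs_lt]
        constructor
        · linarith [Int.le_ceil (avd (G e))]
        · linarith [Int.ceil_lt_add_one (avd (G e))]
      linarith

end Pool.Agent.Results.MP_fd33cb_co.FarMode
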